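import Mathlib

set_option autoImplicit false

namespace Pool.Agent.Lib.MP_70e206_co

open Finset

/-- Bernoulli weights: the chance that a random subset contains `T`. -/
lemma weight_sum {α : Type*} [DecidableEq α] (V T : Finset α) (hT : T ⊆ V) (p : ℝ) :
    ∑ S ∈ V.powerset, (p ^ S.card * (1 - p) ^ (V \ S).card) * (if T ⊆ S then 1 else 0)
      = p ^ T.card := by
  have h := Finset.prod_add (fun _ : α => p) (fun x => if x ∈ T then (0 : ℝ) else 1 - p) V
  have h1 : ∏ x ∈ V, (p + if x ∈ T then (0 : ℝ) else 1 - p) = p ^ T.card := by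
    have : ∀ x ∈ V, (p + if x ∈ T then (0 : ℝ) else 1 - p) = if x ∈ T then p else 1 := by
      intro x _; split_ifs <;> ring
    rw [Finset.prod_congr rfl this, Finset.prod_ite_mem, Finset.inter_eq_right.mpr hT]
    simp
  rw [← h1, h]
  refine Finset.sum_congr rfl fun S hS => ?_
  rw [Finset.prod_const]
  by_cases hTS : T ⊆ S
  · rw [if_pos hTS, mul_one]
    congr 1
    rw [← Finset.prod_const]
    refine Finset.prod_congr rfl fun x hx => ?_
    rw [if_neg]
    intro hxT
    exact (Finset.mem_sdiff.mp hx).2 (hTS hxT)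
  · rw [if_neg hTS, mul_zero]
    obtain ⟨x, hxT, hxS⟩ := Finset.not_subset.mp hTS
    rw [Finset.prod_eq_zero (Finset.mem_sdiff.mpr ⟨hT hxT, hxS⟩) (by simp [hxT]), mul_zero]

/-- The deletion method. -/
lemma deletion {α ι : Type*} [DecidableEq α] (V : Finset α) (I : Finset ι) (b : ι → Finset α)
    (hb : ∀ i ∈ I, b i ⊆ V) (hne : ∀ i ∈ I, (b i).Nonempty) (p : ℝ) (h0 : 0 ≤ p) (h1 : p ≤ 1) :
    ∃ S ⊆ V, (∀ i ∈ I, ¬ b i ⊆ S) ∧ p * V.card - ∑ i ∈ I, p ^ (b i).card ≤ S.card := by
  classical
  set w : Finset α → ℝ := fun S => p ^ S.card * (1 - p) ^ (V \ S).card with hw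
  have hw0 : ∀ S, 0 ≤ w S := fun S => mul_nonneg (pow_nonneg h0 _) (pow_nonneg (by linarith) _)
  have hsum : ∑ S ∈ V.powerset, w S = 1 := by
    have := weight_sum V ∅ (Finset.empty_subset _) p
    simpa using this
  set g : Finset α → ℝ := fun S => (S.card : ℝ) - ((I.filter (fun i => b i ⊆ S)).card : ℝ) with hg
  have hE : ∑ S ∈ V.powerset, w S * g S = p * V.card - ∑ i ∈ I, p ^ (b i).card := by
    have e1 : ∑ S ∈ V.powerset, w S * (S.card : ℝ) = p * V.card := by
      have : ∀ S ∈ V.powerset, w S * (S.card : ℝ)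
          = ∑ x ∈ V, w S * (if ({x} : Finset α) ⊆ S then 1 else 0) := by
        intro S hS
        rw [← Finset.mul_sum]
        congr 1
        simp only [Finset.singleton_subset_iff]
        rw [Finset.sum_boole, Finset.filter_mem_eq_inter,
          Finset.inter_eq_right.mpr (Finset.mem_powerset.mp hS)]
      rw [Finset.sum_congr rfl this, Finset.sum_comm]
      have : ∀ x ∈ V, ∑ S ∈ V.powerset, w S * (if ({x} : Finset α) ⊆ S then 1 else 0) = p := by
        intro x hx
        have := weight_sum V {x} (Finset.singleton_subset_iff.mpr hx) p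
        simpa using this
      rw [Finset.sum_congr rfl this]
      simp [mul_comm]
    have e2 : ∑ S ∈ V.powerset, w S * ((I.filter (fun i => b i ⊆ S)).card : ℝ)
        = ∑ i ∈ I, p ^ (b i).card := by
      have : ∀ S ∈ V.powerset, w S * ((I.filter (fun i => b i ⊆ S)).card : ℝ)
          = ∑ i ∈ I, w S * (if b i ⊆ S then 1 else 0) := by
        intro S _
        rw [← Finset.mul_sum, Finset.sum_boole]
      rw [Finset.sum_congr rfl this, Finset.sum_comm]
      exact Finset.sum_congr rfl fun i hi => weight_sum V (b i) (hb i hi) p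
    simp only [hg, mul_sub, Finset.sum_sub_distrib, e1, e2]
  obtain ⟨S, hS, hSg⟩ : ∃ S ∈ V.powerset, p * V.card - ∑ i ∈ I, p ^ (b i).card ≤ g S := by
    by_contra hcon
    push Not at hcon
    set τ := p * V.card - ∑ i ∈ I, p ^ (b i).card
    obtain ⟨S0, hS0, hS0w⟩ : ∃ S ∈ V.powerset, 0 < w S := by
      by_contra h2
      push Not at h2
      have : ∑ S ∈ V.powerset, w S ≤ 0 := Finset.sum_nonpos h2
      linarith
    have : ∑ S ∈ V.powerset, w S * g S < ∑ S ∈ V.powerset, w S * τ :=
      Finset.sum_lt_sum (fun S hS => mul_le_mul_of_nonneg_left (hcon S hS).le (hw0 S))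
        ⟨S0, hS0, mul_lt_mul_of_pos_left (hcon S0 hS0) hS0w⟩
    rw [← Finset.sum_mul, hsum, hE] at this
    linarith
  let pick : ι → Finset α := fun i => if h : (b i).Nonempty then {h.choose} else ∅
  set J := I.filter (fun i => b i ⊆ S) with hJ
  refine ⟨S \ J.biUnion pick, (Finset.sdiff_subset).trans (Finset.mem_powerset.mp hS), ?_, ?_⟩
  · intro i hi hsub
    have hn := hne i hi
    have hiJ : i ∈ J := Finset.mem_filter.mpr ⟨hi, hsub.trans Finset.sdiff_subset⟩
    have := hsub hn.choose_spec
    refine (Finset.mem_sdiff.mp this).2 (Finset.mem_biUnion.mpr ⟨i, hiJ, ?_⟩)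
    simp [pick, hn]
  · have c1 : (J.biUnion pick).card ≤ J.card := by
      refine Finset.card_biUnion_le.trans ?_
      calc ∑ i ∈ J, (pick i).card ≤ ∑ i ∈ J, 1 := by
            refine Finset.sum_le_sum fun i _ => ?_
            simp only [pick]; split_ifs <;> simp
        _ = J.card := by simp
    have c2 : S.card ≤ (S \ J.biUnion pick).card + (J.biUnion pick).card :=
      Finset.card_le_card_sdiff_add_card
    have c3 : (S.card : ℝ) ≤ (S \ J.biUnion pick).card + J.card := by
      exact_mod_cast c2.trans (Nat.add_le_add_left c1 _)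
    simp only [hg] at hSg
    linarith

/-- Rows orthogonal to `k` independent vectors. -/
lemma card_orth {ι : Type} [Fintype ι] [DecidableEq ι] {k : ℕ} (v : Fin k → ι → ZMod 2)
    (hv : LinearIndependent (ZMod 2) v) :
    (Finset.univ.filter (fun x : ι → ZMod 2 => ∀ i, x ⬝ᵥ v i = 0)).card * 2 ^ k
      = 2 ^ Fintype.card ι := by
  let M : Matrix (Fin k) ι (ZMod 2) := Matrix.of v
  have hr : M.rank = k := by
    have := LinearIndependent.rank_matrix (M := M) hv
    simpa using this
  have h2 := LinearMap.finrank_range_add_finrank_ker M.mulVecLin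
  have h3 : Module.finrank (ZMod 2) (LinearMap.range M.mulVecLin) = k := hr
  rw [h3, Module.finrank_fintype_fun_eq_card] at h2
  have h4 : Nat.card (LinearMap.ker M.mulVecLin) = 2 ^ Module.finrank (ZMod 2) (LinearMap.ker M.mulVecLin) := by
    rw [Module.natCard_eq_pow_finrank (K := ZMod 2), Nat.card_zmod]
  have h5 : (Finset.univ.filter (fun x : ι → ZMod 2 => ∀ i, x ⬝ᵥ v i = 0)).card
      = Nat.card (LinearMap.ker M.mulVecLin) := by
    rw [← Nat.card_eq_finsetCard]
    refine Nat.card_congr (Equiv.subtypeEquivRight fun x => ?_)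
    simp only [Finset.mem_filter, Finset.mem_univ, true_and, LinearMap.mem_ker,
      Matrix.mulVecLin_apply]
    constructor
    · intro h; funext i
      have := h i
      rw [dotProduct_comm] at this
      exact this
    · intro h i
      have := congrFun h i
      rw [dotProduct_comm]
      exact this
  rw [h5, h4, ← pow_add, add_comm, h2]

/-- `r` independent random rows. -/
lemma card_hash {ι : Type} [Fintype ι] [DecidableEq ι] {k : ℕ} (r : ℕ) (v : Fin k → ι → ZMod 2)
    (hv : LinearIndependent (ZMod 2) v) :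
    ((Finset.univ.filter (fun ω : Fin r → ι → ZMod 2 => ∀ i j, ω j ⬝ᵥ v i = 0)).card : ℝ)
      = (Fintype.card (Fin r → ι → ZMod 2) : ℝ) * ((1 / 2 : ℝ) ^ r) ^ k := by
  have h := card_orth v hv
  have e : Finset.univ.filter (fun ω : Fin r → ι → ZMod 2 => ∀ i j, ω j ⬝ᵥ v i = 0)
      = Fintype.piFinset (fun _ : Fin r =>
          Finset.univ.filter (fun x : ι → ZMod 2 => ∀ i, x ⬝ᵥ v i = 0)) := by
    ext ω
    simp only [Finset.mem_filter, Finset.mem_univ, true_and, Fintype.mem_piFinset]
    exact ⟨fun h j i => h i j, fun h i j => h j i⟩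
  rw [e, Fintype.card_piFinset]
  simp only [Finset.prod_const, Finset.card_univ, Fintype.card_fin, Fintype.card_fun, ZMod.card]
  have h' : (((Finset.univ.filter (fun x : ι → ZMod 2 => ∀ i, x ⬝ᵥ v i = 0)).card : ℕ) : ℝ)
      = 2 ^ Fintype.card ι * (1 / 2) ^ k := by
    have : (((Finset.univ.filter (fun x : ι → ZMod 2 => ∀ i, x ⬝ᵥ v i = 0)).card : ℕ) : ℝ) * 2 ^ k
        = 2 ^ Fintype.card ι := by exact_mod_cast h
    rw [← this, mul_assoc, ← mul_pow]; norm_num
  push_cast
  rw [h', mul_pow, ← pow_mul, ← pow_mul, ← pow_mul, mul_comm k r]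

/-- The central term of a binomial expansion. -/
lemma choose_lower (n k : ℕ) (hk : 0 < k) (hkn : k < n) :
    (1 + (k : ℝ) / (n - k)) ^ n ≤ (n + 1) * (n.choose k * ((k : ℝ) / (n - k)) ^ k) := by
  set t : ℝ := (k : ℝ) / (n - k) with ht
  have hnk : (0 : ℝ) < n - k := by
    have : (k : ℝ) < n := by exact_mod_cast hkn
    linarith
  have ht0 : 0 ≤ t := div_nonneg (Nat.cast_nonneg _) hnk.le
  have htk : t * (n - k) = k := by rw [ht]; field_simp
  set a : ℕ → ℝ := fun j => n.choose j * t ^ j with ha
  have step : ∀ j, a (j + 1) * (j + 1) = a j * (((n - j : ℕ) : ℝ) * t) := by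
    intro j
    have := Nat.choose_succ_right_eq n j
    have h2 : (n.choose (j + 1) : ℝ) * (j + 1) = n.choose j * ((n - j : ℕ) : ℝ) := by
      exact_mod_cast this
    simp only [ha, pow_succ]
    calc (n.choose (j + 1) : ℝ) * (t ^ j * t) * (j + 1)
        = ((n.choose (j + 1) : ℝ) * (j + 1)) * (t ^ j * t) := by ring
      _ = _ := by rw [h2]; ring
  have a0 : ∀ j, 0 ≤ a j := fun j => mul_nonneg (Nat.cast_nonneg _) (pow_nonneg ht0 _)
  have up : ∀ j, k ≤ j → a (j + 1) ≤ a j := by
    intro j hj
    have h1 : ((n - j : ℕ) : ℝ) * t ≤ j + 1 := by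
      have : ((n - j : ℕ) : ℝ) ≤ n - k := by
        have : n - j ≤ n - k := Nat.sub_le_sub_left hj n
        have h3 : ((n - k : ℕ) : ℝ) = n - k := by rw [Nat.cast_sub hkn.le]
        rw [← h3]; exact_mod_cast this
      have h4 : (k : ℝ) ≤ j := by exact_mod_cast hj
      nlinarith
    have h2 := step j
    have h3 : (0 : ℝ) < j + 1 := by positivity
    have : a (j + 1) * (j + 1) ≤ a j * (j + 1) := by
      rw [h2]; exact mul_le_mul_of_nonneg_left h1 (a0 j)
    exact le_of_mul_le_mul_right this h3
  have down : ∀ j, j < k → a j ≤ a (j + 1) := by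
    intro j hj
    have h1 : (j + 1 : ℝ) ≤ ((n - j : ℕ) : ℝ) * t := by
      have : (n - k : ℝ) ≤ ((n - j : ℕ) : ℝ) := by
        have : n - k ≤ n - j := Nat.sub_le_sub_left hj.le n
        have h3 : ((n - k : ℕ) : ℝ) = n - k := by rw [Nat.cast_sub hkn.le]
        rw [← h3]; exact_mod_cast this
      have h4 : (j + 1 : ℝ) ≤ k := by exact_mod_cast hj
      nlinarith
    have h2 := step j
    have h3 : (0 : ℝ) < j + 1 := by positivity
    have : a j * (j + 1) ≤ a (j + 1) * (j + 1) := by
      rw [h2]; exact mul_le_mul_of_nonneg_left h1 (a0 j)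
    exact le_of_mul_le_mul_right this h3
  have all : ∀ j, a j ≤ a k := by
    intro j
    rcases le_total k j with h | h
    · induction j, h using Nat.le_induction with
      | base => exact le_rfl
      | succ j hj ih => exact (up j hj).trans ih
    · induction h using Nat.decreasingInduction with
      | self => exact le_rfl
      | of_succ j hj ih => exact (down j hj).trans ih
  rw [add_comm 1 t, add_pow]
  calc ∑ m ∈ Finset.range (n + 1), t ^ m * 1 ^ (n - m) * (n.choose m : ℝ)
      ≤ ∑ m ∈ Finset.range (n + 1), a k := by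
        refine Finset.sum_le_sum fun m _ => ?_
        have := all m
        simp only [ha] at this ⊢
        simpa [mul_comm] using this
    _ = _ := by simp [ha]

/-- Tilted counting of quadruples of `k`-sets obeying a coordinatewise rule. -/
lemma tilt {X : Type} [Fintype X] [DecidableEq X] (R : Bool × Bool × Bool × Bool → Prop)
    [DecidablePred R] (k : ℕ) (t : ℝ) (ht : 0 ≤ t)
    (Q : Finset (Finset X × Finset X × Finset X × Finset X))
    (hQ : ∀ q ∈ Q, q.1.card = k ∧ q.2.1.card = k ∧ q.2.2.1.card = k ∧ q.2.2.2.card = k ∧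
      ∀ x, R (decide (x ∈ q.1), decide (x ∈ q.2.1), decide (x ∈ q.2.2.1), decide (x ∈ q.2.2.2))) :
    (Q.card : ℝ) * t ^ (4 * k) ≤
      (∑ s : Bool × Bool × Bool × Bool, if R s then
        (if s.1 then t else 1) * (if s.2.1 then t else 1) * (if s.2.2.1 then t else 1) *
          (if s.2.2.2 then t else 1) else 0) ^ Fintype.card X := by
  classical
  set w : Bool × Bool × Bool × Bool → ℝ := fun s => if R s then
        (if s.1 then t else 1) * (if s.2.1 then t else 1) * (if s.2.2.1 then t else 1) *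
          (if s.2.2.2 then t else 1) else 0 with hw
  have hw0 : ∀ s, 0 ≤ w s := by
    intro s; simp only [hw]; split_ifs <;> positivity
  let enc : Finset X × Finset X × Finset X × Finset X → X → Bool × Bool × Bool × Bool :=
    fun q x => (decide (x ∈ q.1), decide (x ∈ q.2.1), decide (x ∈ q.2.2.1), decide (x ∈ q.2.2.2))
  have hinj : Function.Injective enc := by
    rintro ⟨a, b, c, d⟩ ⟨a', b', c', d'⟩ h
    have h' := fun x => congrFun h x
    simp only [enc, Prod.mk.injEq, decide_eq_decide] at h'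
    simp only [Prod.mk.injEq]
    exact ⟨Finset.ext fun x => (h' x).1, Finset.ext fun x => (h' x).2.1,
      Finset.ext fun x => (h' x).2.2.1, Finset.ext fun x => (h' x).2.2.2⟩
  have hp : ∀ A : Finset X, ∏ x, (if decide (x ∈ A) = true then t else 1) = t ^ A.card := by
    intro A
    simp only [decide_eq_true_eq]
    rw [Finset.prod_ite_mem, Finset.univ_inter, Finset.prod_const]
  have hval : ∀ q ∈ Q, ∏ x, w (enc q x) = t ^ (4 * k) := by
    intro q hq
    obtain ⟨h1, h2, h3, h4, h5⟩ := hQ q hq
    have : ∀ x, w (enc q x) = (if decide (x ∈ q.1) = true then t else 1) *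
        (if decide (x ∈ q.2.1) = true then t else 1) * (if decide (x ∈ q.2.2.1) = true then t else 1) *
        (if decide (x ∈ q.2.2.2) = true then t else 1) := by
      intro x; simp only [hw, enc]; rw [if_pos (h5 x)]
    simp only [this, Finset.prod_mul_distrib, hp, h1, h2, h3, h4]
    ring
  calc (Q.card : ℝ) * t ^ (4 * k) = ∑ q ∈ Q, ∏ x, w (enc q x) := by
        rw [Finset.sum_congr rfl hval]; simp
    _ = ∑ f ∈ Q.image enc, ∏ x, w (f x) := by
        rw [Finset.sum_image (fun a _ b _ h => hinj h)]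
    _ ≤ ∑ f : X → Bool × Bool × Bool × Bool, ∏ x, w (f x) :=
        Finset.sum_le_sum_of_subset_of_nonneg (Finset.subset_univ _)
          (fun f _ _ => Finset.prod_nonneg fun x _ => hw0 _)
    _ = ∏ x : X, ∑ s, w s := by
        rw [Finset.prod_univ_sum]; simp
    _ = _ := by simp

end Pool.Agent.Lib.MP_70e206_co
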