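import Pool.Agent.Lib.MP_70e206_co.Hash

set_option autoImplicit false
set_option linter.unusedSectionVars false

namespace Pool.Agent.Lib.MP_70e206_co

open Finset

variable {X Y : Type} [Fintype X] [DecidableEq X] [Fintype Y] [DecidableEq Y]

def UF (F : Finset (Finset X × Finset Y)) : Prop :=
  ∀ a ∈ F, ∀ b ∈ F, ∀ c ∈ F, ∀ d ∈ F, a ≠ b → c ≠ d → a.1 ∪ b.1 = c.1 ∪ d.1 →
    a.2 ∪ b.2 = c.2 ∪ d.2 → (a = c ∧ b = d) ∨ (a = d ∧ b = c)

def layer (X : Type) [Fintype X] (k : ℕ) : Finset (Finset X) := powersetCard k univ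

def quads (X : Type) [Fintype X] [DecidableEq X] (k : ℕ) :
    Finset (Finset X × Finset X × Finset X × Finset X) :=
  (layer X k ×ˢ layer X k ×ˢ layer X k ×ˢ layer X k).filter
    (fun q => q.1 ∪ q.2.1 = q.2.2.1 ∪ q.2.2.2)

def dquads (X : Type) [Fintype X] [DecidableEq X] (k : ℕ) :
    Finset (Finset X × Finset X × Finset X × Finset X) :=
  (quads X k).filter (fun q => chi q.1 + chi q.2.1 + chi q.2.2.1 + chi q.2.2.2 = 0)

abbrev W (X Y : Type) := Finset X × Finset Y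

def V0 (X Y : Type) [Fintype X] [Fintype Y] (k l : ℕ) : Finset (W X Y) := layer X k ×ˢ layer Y l

def P0 (X Y : Type) [Fintype X] [DecidableEq X] [Fintype Y] [DecidableEq Y] (k l : ℕ) :
    Finset (W X Y × W X Y) :=
  (V0 X Y k l ×ˢ V0 X Y k l).filter (fun q => q.1 ≠ q.2 ∧ q.1.1 = q.2.1)

def Q0 (X Y : Type) [Fintype X] [DecidableEq X] [Fintype Y] [DecidableEq Y] (k l : ℕ) :
    Finset (W X Y × W X Y × W X Y × W X Y) :=
  (V0 X Y k l ×ˢ V0 X Y k l ×ˢ V0 X Y k l ×ˢ V0 X Y k l).filter (fun q =>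
    (q.1.1 ≠ q.2.1.1 ∧ q.1.1 ≠ q.2.2.1.1 ∧ q.1.1 ≠ q.2.2.2.1 ∧ q.2.1.1 ≠ q.2.2.1.1 ∧
      q.2.1.1 ≠ q.2.2.2.1 ∧ q.2.2.1.1 ≠ q.2.2.2.1) ∧
    q.1.1 ∪ q.2.1.1 = q.2.2.1.1 ∪ q.2.2.2.1 ∧ q.1.2 ∪ q.2.1.2 = q.2.2.1.2 ∪ q.2.2.2.2)

def dep (q : W X Y × W X Y × W X Y × W X Y) : Prop :=
  chi q.1.1 + chi q.2.1.1 + chi q.2.2.1.1 + chi q.2.2.2.1 = 0

instance : DecidablePred (dep (X := X) (Y := Y)) := fun q => by unfold dep; infer_instance

lemma card_P0 (k l : ℕ) : (P0 X Y k l).card ≤ (V0 X Y k l).card * (layer Y l).card := by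
  rw [← Finset.card_product]
  refine Finset.card_le_card_of_injOn (fun q => (q.1, q.2.2)) ?_ ?_
  · intro q hq
    simp only [P0, V0, Finset.coe_filter, Finset.mem_product, Set.mem_ofPred_eq] at hq
    simp only [V0, Finset.coe_product, Set.mem_prod, Finset.mem_coe]
    exact ⟨hq.1.1, hq.1.2.2⟩
  · rintro ⟨a, b⟩ h1 ⟨a', b'⟩ h2 h
    simp only [P0, Finset.coe_filter, Set.mem_ofPred_eq] at h1 h2
    simp only [Prod.mk.injEq] at h ⊢
    refine ⟨h.1, Prod.ext ?_ h.2⟩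
    rw [← h1.2.2, ← h2.2.2, h.1]

def split (q : W X Y × W X Y × W X Y × W X Y) :
    (Finset X × Finset X × Finset X × Finset X) × (Finset Y × Finset Y × Finset Y × Finset Y) :=
  ((q.1.1, q.2.1.1, q.2.2.1.1, q.2.2.2.1), (q.1.2, q.2.1.2, q.2.2.1.2, q.2.2.2.2))

omit [Fintype X] [DecidableEq X] [Fintype Y] [DecidableEq Y] in
lemma split_inj : Function.Injective (split (X := X) (Y := Y)) := by
  rintro ⟨⟨a, a'⟩, ⟨b, b'⟩, ⟨c, c'⟩, ⟨d, d'⟩⟩ ⟨⟨e, e'⟩, ⟨f, f'⟩, ⟨g, g'⟩, ⟨h, h'⟩⟩ H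
  simp only [split, Prod.mk.injEq] at H ⊢
  tauto

lemma card_Q0 (k l : ℕ) : (Q0 X Y k l).card ≤ (quads X k).card * (quads Y l).card := by
  rw [← Finset.card_product]
  refine Finset.card_le_card_of_injOn split ?_ split_inj.injOn
  intro q hq
  simp only [Q0, V0, Finset.coe_filter, Finset.mem_product, Set.mem_ofPred_eq] at hq
  simp only [split, quads, Finset.coe_product, Set.mem_prod, Finset.mem_coe, Finset.mem_filter,
    Finset.mem_product]
  tauto

lemma card_Q0dep (k l : ℕ) :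
    ((Q0 X Y k l).filter dep).card ≤ (dquads X k).card * (quads Y l).card := by
  rw [← Finset.card_product]
  refine Finset.card_le_card_of_injOn split ?_ split_inj.injOn
  intro q hq
  simp only [Q0, V0, dep, Finset.coe_filter, Finset.mem_filter, Finset.mem_product,
    Set.mem_ofPred_eq] at hq
  simp only [split, quads, dquads, Finset.coe_product, Set.mem_prod, Finset.mem_coe,
    Finset.mem_filter, Finset.mem_product]
  tauto

def Vo {r : ℕ} (k l : ℕ) (ω : Om X r) : Finset (W X Y) :=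
  (V0 X Y k l).filter (fun c => kept ω c.1)

def Po {r : ℕ} (k l : ℕ) (ω : Om X r) : Finset (W X Y × W X Y) :=
  (P0 X Y k l).filter (fun q => kept ω q.1.1 ∧ kept ω q.2.1)

def Qo {r : ℕ} (k l : ℕ) (ω : Om X r) : Finset (W X Y × W X Y × W X Y × W X Y) :=
  (Q0 X Y k l).filter (fun q => kept ω q.1.1 ∧ kept ω q.2.1.1 ∧ kept ω q.2.2.1.1 ∧ kept ω q.2.2.2.1)

lemma select {r : ℕ} (k l : ℕ) (ω : Om X r) (p : ℝ) (h0 : 0 ≤ p) (h1 : p ≤ 1) :
    ∃ F : Finset (W X Y), UF F ∧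
      p * (Vo (Y := Y) k l ω).card - p ^ 2 * (Po (Y := Y) k l ω).card
        - p ^ 4 * (Qo (Y := Y) k l ω).card ≤ F.card := by
  let b : (W X Y × W X Y) ⊕ (W X Y × W X Y × W X Y × W X Y) → Finset (W X Y) :=
    Sum.elim (fun q => {q.1, q.2}) (fun q => {q.1, q.2.1, q.2.2.1, q.2.2.2})
  obtain ⟨S, hS, hno, hc⟩ := deletion (Vo (Y := Y) k l ω) ((Po k l ω).disjSum (Qo k l ω)) b
    (by
      rintro (q | q) hq
      · rw [Finset.inl_mem_disjSum] at hq
        simp only [Po, P0, Finset.mem_filter, Finset.mem_product] at hq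
        intro x hx
        simp only [b, Sum.elim_inl, Finset.mem_insert, Finset.mem_singleton] at hx
        simp only [Vo, Finset.mem_filter]
        rcases hx with rfl | rfl <;> tauto
      · rw [Finset.inr_mem_disjSum] at hq
        simp only [Qo, Q0, Finset.mem_filter, Finset.mem_product] at hq
        intro x hx
        simp only [b, Sum.elim_inr, Finset.mem_insert, Finset.mem_singleton] at hx
        simp only [Vo, Finset.mem_filter]
        rcases hx with rfl | rfl | rfl | rfl <;> tauto)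
    (by rintro (q | q) _ <;> simp [b]) p h0 h1
  have hV : ∀ a ∈ S, a ∈ V0 X Y k l ∧ kept ω a.1 := fun a ha => Finset.mem_filter.mp (hS ha)
  have hinj : ∀ a ∈ S, ∀ c ∈ S, a ≠ c → a.1 ≠ c.1 := by
    intro a ha c hc hac h
    refine hno (Sum.inl (a, c)) ?_ ?_
    · rw [Finset.inl_mem_disjSum]
      simp only [Po, P0, Finset.mem_filter, Finset.mem_product]
      exact ⟨⟨⟨(hV a ha).1, (hV c hc).1⟩, hac, h⟩, (hV a ha).2, (hV c hc).2⟩
    · intro x hx
      simp only [b, Sum.elim_inl, Finset.mem_insert, Finset.mem_singleton] at hx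
      rcases hx with rfl | rfl <;> assumption
  have hcan : ∀ a ∈ S, ∀ b ∈ S, ∀ c ∈ S, a.1 ∪ b.1 = a.1 ∪ c.1 → b = c := by
    intro a ha b hb c hc h
    by_contra hne
    exact hinj b hb c hc hne (cancel (hV a ha).2 (hV b hb).2 (hV c hc).2 h)
  refine ⟨S, ?_, ?_⟩
  · intro a ha b' hb c hc' d hd hab hcd hx hy
    by_cases hac : a = c
    · subst hac; exact Or.inl ⟨rfl, hcan a ha b' hb d hd hx⟩
    by_cases had : a = d
    · subst had
      exact Or.inr ⟨rfl, hcan a ha b' hb c hc' (hx.trans (Finset.union_comm _ _))⟩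
    by_cases hbc : b' = c
    · subst hbc
      exact absurd (hcan b' hb a ha d hd ((Finset.union_comm _ _).trans hx)) had
    by_cases hbd : b' = d
    · subst hbd
      exact absurd (hcan b' hb a ha c hc'
        ((Finset.union_comm _ _).trans (hx.trans (Finset.union_comm _ _)))) hac
    exfalso
    refine hno (Sum.inr (a, b', c, d)) ?_ ?_
    · rw [Finset.inr_mem_disjSum]
      simp only [Qo, Q0, Finset.mem_filter, Finset.mem_product]
      exact ⟨⟨⟨(hV a ha).1, (hV b' hb).1, (hV c hc').1, (hV d hd).1⟩,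
        ⟨hinj a ha b' hb hab, hinj a ha c hc' hac, hinj a ha d hd had, hinj b' hb c hc' hbc,
          hinj b' hb d hd hbd, hinj c hc' d hd hcd⟩, hx, hy⟩,
        (hV a ha).2, (hV b' hb).2, (hV c hc').2, (hV d hd).2⟩
    · intro x hx
      simp only [b, Sum.elim_inr, Finset.mem_insert, Finset.mem_singleton] at hx
      rcases hx with rfl | rfl | rfl | rfl <;> assumption
  · rw [Finset.sum_disjSum] at hc
    have e1 : ∑ q ∈ Po (Y := Y) k l ω, p ^ (b (Sum.inl q)).card = p ^ 2 * (Po (Y := Y) k l ω).card := by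
      rw [Finset.sum_congr rfl (g := fun _ => p ^ 2), Finset.sum_const, nsmul_eq_mul, mul_comm]
      intro q hq
      simp only [Po, P0, Finset.mem_filter] at hq
      simp only [b, Sum.elim_inl]
      rw [Finset.card_pair hq.1.2.1]
    have e2 : ∑ q ∈ Qo (Y := Y) k l ω, p ^ (b (Sum.inr q)).card = p ^ 4 * (Qo (Y := Y) k l ω).card := by
      rw [Finset.sum_congr rfl (g := fun _ => p ^ 4), Finset.sum_const, nsmul_eq_mul, mul_comm]
      intro q hq
      simp only [Qo, Q0, Finset.mem_filter] at hq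
      obtain ⟨⟨-, ⟨n1, n2, n3, n4, n5, n6⟩, -⟩, -⟩ := hq
      have m1 : q.1 ≠ q.2.1 := fun h => n1 (by rw [h])
      have m2 : q.1 ≠ q.2.2.1 := fun h => n2 (by rw [h])
      have m3 : q.1 ≠ q.2.2.2 := fun h => n3 (by rw [h])
      have m4 : q.2.1 ≠ q.2.2.1 := fun h => n4 (by rw [h])
      have m5 : q.2.1 ≠ q.2.2.2 := fun h => n5 (by rw [h])
      have m6 : q.2.2.1 ≠ q.2.2.2 := fun h => n6 (by rw [h])
      simp only [b, Sum.elim_inr]
      rw [Finset.card_insert_of_notMem (by simp [m1, m2, m3]),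
        Finset.card_insert_of_notMem (by simp [m4, m5]), Finset.card_pair m6]
    rw [e1, e2] at hc
    linarith

lemma avgV (k l : ℕ) :
    (V0 X Y k l).card * (Fintype.card (Om X (k + 1)) * (1 / 2 : ℝ) ^ (k + 1) / 2)
      ≤ ∑ ω : Om X (k + 1), ((Vo (Y := Y) k l ω).card : ℝ) := by
  simp only [Vo]
  rw [sum_card_swap (V0 X Y k l) (fun (ω : Om X (k + 1)) (c : W X Y) => kept ω c.1),
    ← nsmul_eq_mul, ← Finset.sum_const]
  refine Finset.sum_le_sum fun c hc => ?_
  have hk : c.1.card = k := by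
    simp only [V0, layer, Finset.mem_product, Finset.mem_powersetCard] at hc
    exact hc.1.2
  subst hk
  exact cnt_kept c.1

lemma avgP (r k l : ℕ) :
    ∑ ω : Om X r, ((Po (Y := Y) k l ω).card : ℝ)
      ≤ (P0 X Y k l).card * (Fintype.card (Om X r) * (1 / 2 : ℝ) ^ r) := by
  simp only [Po]
  rw [sum_card_swap (P0 X Y k l)
    (fun (ω : Om X r) (q : W X Y × W X Y) => kept ω q.1.1 ∧ kept ω q.2.1),
    ← nsmul_eq_mul, ← Finset.sum_const]
  refine Finset.sum_le_sum fun q _ => ?_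
  rw [← cnt1 r q.1.1]
  exact_mod_cast Finset.card_le_card (fun ω hω => by
    simp only [Finset.mem_filter, Finset.mem_univ, true_and] at hω ⊢
    exact hω.1.1)

lemma avgQ (r k l : ℕ) :
    ∑ ω : Om X r, ((Qo (Y := Y) k l ω).card : ℝ)
      ≤ ((Q0 X Y k l).filter dep).card * (Fintype.card (Om X r) * ((1 / 2 : ℝ) ^ r) ^ 3)
        + (Q0 X Y k l).card * (Fintype.card (Om X r) * ((1 / 2 : ℝ) ^ r) ^ 4) := by
  simp only [Qo]
  have e : ∀ (s : Finset (W X Y × W X Y × W X Y × W X Y)) (c : ℝ),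
      (s.card : ℝ) * c = ∑ _q ∈ s, c := fun s c => by simp
  rw [sum_card_swap (Q0 X Y k l)
    (fun (ω : Om X r) (q : W X Y × W X Y × W X Y × W X Y) =>
      kept ω q.1.1 ∧ kept ω q.2.1.1 ∧ kept ω q.2.2.1.1 ∧ kept ω q.2.2.2.1),
    e, e, Finset.sum_filter, ← Finset.sum_add_distrib]
  refine Finset.sum_le_sum fun q hq => ?_
  simp only [Q0, Finset.mem_filter] at hq
  obtain ⟨-, ⟨n1, n2, n3, n4, n5, n6⟩, -⟩ := hq
  by_cases hd : dep q
  · rw [if_pos hd, ← cnt3 r n1 n2 n4]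
    have : (0 : ℝ) ≤ Fintype.card (Om X r) * ((1 / 2 : ℝ) ^ r) ^ 4 := by positivity
    refine le_add_of_le_of_nonneg ?_ this
    exact_mod_cast Finset.card_le_card (fun ω hω => by
      simp only [Finset.mem_filter, Finset.mem_univ, true_and] at hω ⊢
      exact ⟨hω.1.1, hω.2.1.1, hω.2.2.1.1⟩)
  · rw [if_neg hd, zero_add, ← cnt4 r n1 n2 n3 n4 n5 n6 hd]
    exact_mod_cast Finset.card_le_card (fun ω hω => by
      simp only [Finset.mem_filter, Finset.mem_univ, true_and] at hω ⊢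
      exact ⟨hω.1.1, hω.2.1.1, hω.2.2.1.1, hω.2.2.2.1⟩)

theorem construct (k l : ℕ) (M : ℝ) (hM : 0 ≤ M) (BX BY : ℝ) (hBX : BX = (layer X k).card)
    (hBY : BY = (layer Y l).card) (hX : 0 < BX) (hY : 1 ≤ BY)
    (ha : 8 * M * 2 ^ (k + 1) ≤ BX)
    (hb : 8 * M ^ 3 * ((quads X k).card * (quads Y l).card) ≤ (BX * BY) ^ 4)
    (hc : 8 * M ^ 3 * 2 ^ (k + 1) * ((dquads X k).card * (quads Y l).card) ≤ (BX * BY) ^ 4) :
    ∃ F : Finset (W X Y), UF F ∧ M / 8 ≤ F.card := by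
  set T : ℝ := 2 ^ (k + 1) with hT
  have hT0 : 0 < T := by positivity
  have hρ : (1 / 2 : ℝ) ^ (k + 1) = T⁻¹ := by rw [hT, one_div, inv_pow]
  have hV : ((V0 X Y k l).card : ℝ) = BX * BY := by
    rw [hBX, hBY, V0, Finset.card_product]; push_cast; ring
  have hV0 : 0 < BX * BY := by positivity
  set p : ℝ := M * T / (BX * BY) with hp
  have h0 : 0 ≤ p := by positivity
  have h1 : p ≤ 1 := by
    rw [hp, div_le_one hV0]
    nlinarith [mul_nonneg hM hT0.le]
  set N : ℝ := ((Fintype.card (Om X (k + 1)) : ℕ) : ℝ) with hN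
  have hN0 : 0 < N := by rw [hN]; exact_mod_cast Fintype.card_pos
  have a1 := avgV (X := X) (Y := Y) k l
  have a2 := avgP (X := X) (Y := Y) (k + 1) k l
  have a3 := avgQ (X := X) (Y := Y) (k + 1) k l
  rw [hρ, ← hN] at a1 a2 a3
  rw [hV] at a1
  have b2 : ((P0 X Y k l).card : ℝ) ≤ BX * BY * BY := by
    rw [← hV, hBY]; exact_mod_cast card_P0 k l
  have b3 : ((Q0 X Y k l).card : ℝ) ≤ (quads X k).card * (quads Y l).card := by
    exact_mod_cast card_Q0 k l
  have b4 : (((Q0 X Y k l).filter dep).card : ℝ) ≤ (dquads X k).card * (quads Y l).card := by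
    exact_mod_cast card_Q0dep k l
  have c1 : p * (BX * BY * (N * T⁻¹ / 2)) = N * (M / 2) := by rw [hp]; field_simp
  have c2 : p ^ 2 * (BX * BY * BY * (N * T⁻¹)) ≤ N * (M / 8) := by
    have : p ^ 2 * (BX * BY * BY * (N * T⁻¹)) = N * (M / 8) * ((8 * M * T) / BX) := by
      rw [hp]; field_simp
    rw [this]
    exact mul_le_of_le_one_right (by positivity) ((div_le_one hX).mpr ha)
  have c3 : p ^ 4 * ((dquads X k).card * (quads Y l).card * (N * T⁻¹ ^ 3)) ≤ N * (M / 8) := by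
    have : p ^ 4 * ((dquads X k).card * (quads Y l).card * (N * T⁻¹ ^ 3)) = N * (M / 8) *
        ((8 * M ^ 3 * T * ((dquads X k).card * (quads Y l).card)) / (BX * BY) ^ 4) := by
      rw [hp]; field_simp
    rw [this]
    exact mul_le_of_le_one_right (by positivity) ((div_le_one (by positivity)).mpr hc)
  have c4 : p ^ 4 * ((quads X k).card * (quads Y l).card * (N * T⁻¹ ^ 4)) ≤ N * (M / 8) := by
    have : p ^ 4 * ((quads X k).card * (quads Y l).card * (N * T⁻¹ ^ 4)) = N * (M / 8) *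
        ((8 * M ^ 3 * ((quads X k).card * (quads Y l).card)) / (BX * BY) ^ 4) := by
      rw [hp]; field_simp
    rw [this]
    exact mul_le_of_le_one_right (by positivity) ((div_le_one (by positivity)).mpr hb)
  have d1 := mul_le_mul_of_nonneg_left a1 h0
  have d2 := mul_le_mul_of_nonneg_left
    (a2.trans (mul_le_mul_of_nonneg_right b2 (by positivity))) (pow_nonneg h0 2)
  have d3 := mul_le_mul_of_nonneg_left
    (a3.trans (add_le_add (mul_le_mul_of_nonneg_right b4 (by positivity))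
      (mul_le_mul_of_nonneg_right b3 (by positivity)))) (pow_nonneg h0 4)
  have key : ∑ _ω : Om X (k + 1), M / 8 ≤ ∑ ω : Om X (k + 1),
      (p * (Vo (Y := Y) k l ω).card - p ^ 2 * (Po (Y := Y) k l ω).card
        - p ^ 4 * (Qo (Y := Y) k l ω).card) := by
    rw [Finset.sum_sub_distrib, Finset.sum_sub_distrib, ← Finset.mul_sum, ← Finset.mul_sum,
      ← Finset.mul_sum, Finset.sum_const, Finset.card_univ, nsmul_eq_mul, ← hN]
    rw [mul_add] at d3
    linarith
  obtain ⟨ω, -, hω⟩ := Finset.exists_le_of_sum_le Finset.univ_nonempty key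
  obtain ⟨F, hF, hc⟩ := select (Y := Y) k l ω p h0 h1
  exact ⟨F, hF, hω.trans hc⟩

lemma quads_le (k : ℕ) (t : ℝ) (ht : 0 ≤ t) :
    ((quads X k).card : ℝ) * t ^ (4 * k) ≤ (1 + (2 * t + t ^ 2) ^ 2) ^ Fintype.card X := by
  have := tilt (X := X) (fun s => (s.1 || s.2.1) = (s.2.2.1 || s.2.2.2)) k t ht (quads X k) (by
    intro q hq
    simp only [quads, layer, Finset.mem_filter, Finset.mem_product, Finset.mem_powersetCard] at hq
    refine ⟨hq.1.1.2, hq.1.2.1.2, hq.1.2.2.1.2, hq.1.2.2.2.2, fun x => ?_⟩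
    have h : x ∈ q.1 ∪ q.2.1 ↔ x ∈ q.2.2.1 ∪ q.2.2.2 := by rw [hq.2]
    simp only [Finset.mem_union] at h
    simp only [← Bool.decide_or, decide_eq_decide]
    exact h)
  refine this.trans (le_of_eq ?_)
  congr 1
  simp [Fintype.sum_prod_type]
  ring

lemma dquads_le (k : ℕ) (t : ℝ) (ht : 0 ≤ t) :
    ((dquads X k).card : ℝ) * t ^ (4 * k) ≤ (1 + 4 * t ^ 2 + t ^ 4) ^ Fintype.card X := by
  have := tilt (X := X) (fun s => (s.1 || s.2.1) = (s.2.2.1 || s.2.2.2) ∧
      (s.1 && s.2.1) = (s.2.2.1 && s.2.2.2)) k t ht (dquads X k) (by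
    intro q hq
    simp only [dquads, quads, layer, Finset.mem_filter, Finset.mem_product,
      Finset.mem_powersetCard] at hq
    refine ⟨hq.1.1.1.2, hq.1.1.2.1.2, hq.1.1.2.2.1.2, hq.1.1.2.2.2.2, fun x => ?_⟩
    have h : x ∈ q.1 ∪ q.2.1 ↔ x ∈ q.2.2.1 ∪ q.2.2.2 := by rw [hq.1.2]
    have h2 := congrFun hq.2 (some x)
    simp only [Finset.mem_union] at h
    simp only [chi, Pi.add_apply, Option.elim, Pi.zero_apply] at h2
    by_cases e1 : x ∈ q.1 <;> by_cases e2 : x ∈ q.2.1 <;> by_cases e3 : x ∈ q.2.2.1 <;>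
      by_cases e4 : x ∈ q.2.2.2 <;> simp only [e1, e2, e3, e4, if_true, if_false] at h h2 ⊢ <;>
      first
        | exact absurd h2 (by decide)
        | decide
        | simp at h)
  refine this.trans (le_of_eq ?_)
  congr 1
  simp [Fintype.sum_prod_type]
  ring

end Pool.Agent.Lib.MP_70e206_co
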