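import Pool.Agent.Lib.MP_70e206_co.Basic

set_option autoImplicit false

namespace Pool.Agent.Lib.MP_70e206_co

open Finset

variable {X Y : Type} [Fintype X] [DecidableEq X] [Fintype Y] [DecidableEq Y]

def chi (A : Finset X) : Option X → ZMod 2 := fun o => o.elim 1 (fun x => if x ∈ A then 1 else 0)

def zeta (Z : Finset X) : Option X → ZMod 2 := fun o => o.elim 0 (fun x => if x ∈ Z then 1 else 0)

lemma two (x : ZMod 2) : x = 0 ∨ x = 1 := by revert x; decide

omit [Fintype X] in
lemma chi_add (B C : Finset X) : chi B + chi C = zeta (symmDiff B C) := by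
  funext o
  cases o with
  | none => simp only [chi, zeta, Pi.add_apply, Option.elim]; decide
  | some x =>
    simp only [chi, zeta, Pi.add_apply, Option.elim, Finset.mem_symmDiff]
    by_cases h1 : x ∈ B <;> by_cases h2 : x ∈ C <;> simp [h1, h2]
    decide

omit [Fintype X] in
lemma zeta_ne {Z : Finset X} (hZ : Z.Nonempty) : zeta Z ≠ 0 := by
  obtain ⟨x, hx⟩ := hZ
  intro h
  have := congrFun h (some x)
  simp [zeta, hx] at this

omit [Fintype X] in
lemma chi_add_ne {A B : Finset X} (h : A ≠ B) : chi A + chi B ≠ 0 := by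
  rw [chi_add]
  exact zeta_ne (Finset.symmDiff_nonempty.mpr h)

omit [Fintype X] in
lemma li1 (A : Finset X) : LinearIndependent (ZMod 2) ![chi A] := by
  rw [Fintype.linearIndependent_iff]
  intro g h i
  have hn := congrFun h none
  fin_cases i
  simpa [chi] using hn

omit [Fintype X] in
lemma li2 (A : Finset X) {Z : Finset X} (hZ : Z.Nonempty) :
    LinearIndependent (ZMod 2) ![chi A, zeta Z] := by
  rw [Fintype.linearIndependent_iff]
  intro g h
  have hn := congrFun h none
  simp only [Fin.sum_univ_two, Matrix.cons_val_zero, Matrix.cons_val_one] at h hn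
  have h0 : g 0 = 0 := by simpa [chi, zeta] using hn
  have h1 : g 1 = 0 := by
    rcases two (g 1) with h1 | h1
    · exact h1
    · rw [h0, h1, zero_smul, one_smul, zero_add] at h
      exact absurd h (zeta_ne hZ)
  intro i; fin_cases i <;> assumption

omit [Fintype X] in
lemma li3 {A B C : Finset X} (hAB : A ≠ B) (hAC : A ≠ C) (hBC : B ≠ C) :
    LinearIndependent (ZMod 2) ![chi A, chi B, chi C] := by
  rw [Fintype.linearIndependent_iff]
  intro g h
  simp only [Fin.sum_univ_three, Matrix.cons_val_zero, Matrix.cons_val_one, Matrix.cons_val] at h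
  have hn : g 0 + g 1 + g 2 = 0 := by simpa [chi] using congrFun h none
  have : g 0 = 0 ∧ g 1 = 0 ∧ g 2 = 0 := by
    rcases two (g 0) with h0 | h0 <;> rcases two (g 1) with h1 | h1 <;>
      rcases two (g 2) with h2 | h2 <;> rw [h0, h1, h2] at h hn <;>
      simp only [zero_smul, one_smul, zero_add, add_zero] at h <;>
      first
        | exact ⟨h0, h1, h2⟩
        | exact absurd hn (by decide)
        | exact absurd h (chi_add_ne (by assumption))
  intro i; fin_cases i
  · exact this.1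
  · exact this.2.1
  · exact this.2.2

omit [Fintype X] in
lemma li4 {A B C D : Finset X} (hAB : A ≠ B) (hAC : A ≠ C) (hAD : A ≠ D) (hBC : B ≠ C)
    (hBD : B ≠ D) (hCD : C ≠ D) (hs : chi A + chi B + chi C + chi D ≠ 0) :
    LinearIndependent (ZMod 2) ![chi A, chi B, chi C, chi D] := by
  rw [Fintype.linearIndependent_iff]
  intro g h
  simp only [Fin.sum_univ_four, Matrix.cons_val_zero, Matrix.cons_val_one, Matrix.cons_val] at h
  have hn : g 0 + g 1 + g 2 + g 3 = 0 := by simpa [chi] using congrFun h none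
  have : g 0 = 0 ∧ g 1 = 0 ∧ g 2 = 0 ∧ g 3 = 0 := by
    rcases two (g 0) with h0 | h0 <;> rcases two (g 1) with h1 | h1 <;>
      rcases two (g 2) with h2 | h2 <;> rcases two (g 3) with h3 | h3 <;>
      rw [h0, h1, h2, h3] at h hn <;>
      simp only [zero_smul, one_smul, zero_add, add_zero] at h <;>
      first
        | exact ⟨h0, h1, h2, h3⟩
        | exact absurd hn (by decide)
        | exact absurd h hs
        | exact absurd h (chi_add_ne (by assumption))
  intro i; fin_cases i
  · exact this.1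
  · exact this.2.1
  · exact this.2.2.1
  · exact this.2.2.2

abbrev Om (X : Type) (r : ℕ) := Fin r → Option X → ZMod 2

def sat {r : ℕ} (ω : Om X r) (v : Option X → ZMod 2) : Prop := ∀ j, ω j ⬝ᵥ v = 0

instance {r : ℕ} (ω : Om X r) (v : Option X → ZMod 2) : Decidable (sat ω v) := by
  unfold sat; infer_instance

/-- The sets kept by the hash `ω`. -/
def kept {r : ℕ} (ω : Om X r) (A : Finset X) : Prop :=
  sat ω (chi A) ∧ ∀ Z ∈ A.powerset, Z.Nonempty → ¬ sat ω (zeta Z)

instance {r : ℕ} (ω : Om X r) (A : Finset X) : Decidable (kept ω A) := by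
  unfold kept; infer_instance

lemma cnt1 (r : ℕ) (A : Finset X) :
    ((univ.filter (fun ω : Om X r => sat ω (chi A))).card : ℝ)
      = Fintype.card (Om X r) * (1 / 2 : ℝ) ^ r := by
  have := card_hash r _ (li1 A)
  rw [pow_one] at this
  rw [← this]
  congr 2
  ext ω
  simp [sat, Fin.forall_fin_one]

lemma cnt2 (r : ℕ) (A : Finset X) {Z : Finset X} (hZ : Z.Nonempty) :
    ((univ.filter (fun ω : Om X r => sat ω (chi A) ∧ sat ω (zeta Z))).card : ℝ)
      = Fintype.card (Om X r) * ((1 / 2 : ℝ) ^ r) ^ 2 := by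
  rw [← card_hash r _ (li2 A hZ)]
  congr 2
  ext ω
  simp [sat, Fin.forall_fin_two]

lemma cnt3 (r : ℕ) {A B C : Finset X} (hAB : A ≠ B) (hAC : A ≠ C) (hBC : B ≠ C) :
    ((univ.filter (fun ω : Om X r => sat ω (chi A) ∧ sat ω (chi B) ∧ sat ω (chi C))).card : ℝ)
      = Fintype.card (Om X r) * ((1 / 2 : ℝ) ^ r) ^ 3 := by
  rw [← card_hash r _ (li3 hAB hAC hBC)]
  congr 2
  ext ω
  simp [sat, Fin.forall_fin_succ]

lemma cnt4 (r : ℕ) {A B C D : Finset X} (hAB : A ≠ B) (hAC : A ≠ C) (hAD : A ≠ D) (hBC : B ≠ C)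
    (hBD : B ≠ D) (hCD : C ≠ D) (hs : chi A + chi B + chi C + chi D ≠ 0) :
    ((univ.filter (fun ω : Om X r =>
      sat ω (chi A) ∧ sat ω (chi B) ∧ sat ω (chi C) ∧ sat ω (chi D))).card : ℝ)
      = Fintype.card (Om X r) * ((1 / 2 : ℝ) ^ r) ^ 4 := by
  rw [← card_hash r _ (li4 hAB hAC hAD hBC hBD hCD hs)]
  congr 2
  ext ω
  simp [sat, Fin.forall_fin_succ]

lemma cnt_kept (A : Finset X) :
    Fintype.card (Om X (A.card + 1)) * (1 / 2 : ℝ) ^ (A.card + 1) / 2
      ≤ ((univ.filter (fun ω : Om X (A.card + 1) => kept ω A)).card : ℝ) := by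
  set r := A.card + 1 with hr
  have hsub : univ.filter (fun ω : Om X r => sat ω (chi A)) ⊆
      univ.filter (fun ω : Om X r => kept ω A) ∪
        (A.powerset.filter (fun Z => Z.Nonempty)).biUnion
          (fun Z => univ.filter (fun ω : Om X r => sat ω (chi A) ∧ sat ω (zeta Z))) := by
    intro ω hω
    have h1 := (Finset.mem_filter.mp hω).2
    by_cases hk : kept ω A
    · exact Finset.mem_union_left _ (Finset.mem_filter.mpr ⟨Finset.mem_univ _, hk⟩)
    · refine Finset.mem_union_right _ ?_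
      unfold kept at hk
      push Not at hk
      obtain ⟨Z, hZ, hZn, hZs⟩ := hk h1
      exact Finset.mem_biUnion.mpr ⟨Z, Finset.mem_filter.mpr ⟨hZ, hZn⟩,
        Finset.mem_filter.mpr ⟨Finset.mem_univ _, h1, hZs⟩⟩
  have h2 := (Finset.card_le_card hsub).trans
    ((Finset.card_union_le _ _).trans (Nat.add_le_add_left Finset.card_biUnion_le _))
  have h3 : ((univ.filter (fun ω : Om X r => sat ω (chi A))).card : ℝ) ≤
      (univ.filter (fun ω : Om X r => kept ω A)).card +
      ∑ Z ∈ A.powerset.filter (fun Z => Z.Nonempty),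
        ((univ.filter (fun ω : Om X r => sat ω (chi A) ∧ sat ω (zeta Z))).card : ℝ) := by
    exact_mod_cast h2
  rw [cnt1, Finset.sum_congr rfl (fun Z hZ => cnt2 r A (Finset.mem_filter.mp hZ).2),
    Finset.sum_const, nsmul_eq_mul] at h3
  have h4 : ((A.powerset.filter (fun Z => Z.Nonempty)).card : ℝ) ≤ 2 ^ A.card := by
    have := (Finset.card_filter_le A.powerset (fun Z => Z.Nonempty))
    rw [Finset.card_powerset] at this
    exact_mod_cast this
  have h5 : (2 : ℝ) ^ A.card * (1 / 2) ^ r = 1 / 2 := by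
    rw [hr, pow_succ, ← mul_assoc, ← mul_pow]; norm_num
  have h6 : (0 : ℝ) ≤ Fintype.card (Om X r) * ((1 / 2 : ℝ) ^ r) ^ 2 := by positivity
  have h7 := mul_le_mul_of_nonneg_right h4 h6
  have h8 : (2 : ℝ) ^ A.card * (Fintype.card (Om X r) * ((1 / 2 : ℝ) ^ r) ^ 2)
      = Fintype.card (Om X r) * (1 / 2 : ℝ) ^ r / 2 := by
    calc _ = (2 ^ A.card * (1 / 2 : ℝ) ^ r) * (Fintype.card (Om X r) * (1 / 2 : ℝ) ^ r) := by ring
      _ = _ := by rw [h5]; ring
  linarith

lemma cancel {r : ℕ} {ω : Om X r} {A B C : Finset X} (hA : kept ω A) (hB : kept ω B)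
    (hC : kept ω C) (h : A ∪ B = A ∪ C) : B = C := by
  by_contra hne
  refine hA.2 (symmDiff B C) (Finset.mem_powerset.mpr ?_) (Finset.symmDiff_nonempty.mpr hne) ?_
  · intro x hx
    have h1 : x ∈ A ∪ B ↔ x ∈ A ∪ C := by rw [h]
    simp only [Finset.mem_union, Finset.mem_symmDiff] at h1 hx
    tauto
  · intro j
    rw [← chi_add, dotProduct_add, hB.1 j, hC.1 j, add_zero]

lemma sum_card_swap {α β : Type*} [Fintype α] (s : Finset β) (p : α → β → Prop)
    [∀ a b, Decidable (p a b)] :
    ∑ a, ((s.filter (fun b => p a b)).card : ℝ)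
      = ∑ b ∈ s, ((univ.filter (fun a => p a b)).card : ℝ) := by
  simp only [← Finset.sum_boole]
  exact Finset.sum_comm

end Pool.Agent.Lib.MP_70e206_co
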