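import Pool.Agent.Lib.MP_70e206_co.Construct

set_option autoImplicit false

namespace Pool.Agent.Lib.MP_70e206_co

open Finset Filter

lemma ev (θ c : ℝ) (hθ : 1 < θ) (hc : 0 < c) :
    ∀ᶠ m : ℕ in atTop, c * (68 * (m : ℝ) + 1) ^ 8 ≤ θ ^ m := by
  have h := tendsto_pow_const_div_const_pow_of_one_lt 8 hθ
  have h2 := h.eventually (gt_mem_nhds (show (0 : ℝ) < 1 / (c * 69 ^ 8) by positivity))
  filter_upwards [h2, eventually_ge_atTop 1] with m hm hm1
  have hθm : 0 < θ ^ m := by positivity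
  have hm1' : (1 : ℝ) ≤ m := by exact_mod_cast hm1
  rw [div_lt_div_iff₀ hθm (by positivity)] at hm
  have : (68 * (m : ℝ) + 1) ^ 8 ≤ (69 * m) ^ 8 :=
    pow_le_pow_left₀ (by positivity) (by linarith) 8
  calc c * (68 * (m : ℝ) + 1) ^ 8 ≤ c * (69 * m) ^ 8 := mul_le_mul_of_nonneg_left this hc.le
    _ = (m : ℝ) ^ 8 * (c * 69 ^ 8) := by ring
    _ ≤ _ := by linarith

lemma layer_lower (a b m : ℕ) (hb : 0 < b) (hab : b < a) (hm : 0 < m) :
    ((1 + (b : ℝ) / (a - b)) ^ a / ((b : ℝ) / (a - b)) ^ b) ^ m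
      ≤ ((a * m : ℕ) + 1) * ((layer (Fin (a * m)) (b * m)).card : ℝ) := by
  have h := choose_lower (a * m) (b * m) (Nat.mul_pos hb hm) (Nat.mul_lt_mul_of_pos_right hab hm)
  have hm' : (0 : ℝ) < m := by exact_mod_cast hm
  have hab' : (0 : ℝ) < a - b := by
    have : (b : ℝ) < a := by exact_mod_cast hab
    linarith
  have hb' : (0 : ℝ) < b := by exact_mod_cast hb
  have e : ((b * m : ℕ) : ℝ) / (((a * m : ℕ) : ℝ) - ((b * m : ℕ) : ℝ)) = b / (a - b) := by
    push_cast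
    rw [← sub_mul, mul_div_mul_right _ _ hm'.ne']
  rw [e] at h
  have ht : (0 : ℝ) < ((b : ℝ) / (a - b)) ^ (b * m) := by positivity
  rw [div_pow, ← pow_mul, ← pow_mul, div_le_iff₀ ht, layer, Finset.card_powersetCard,
    Finset.card_univ, Fintype.card_fin, mul_assoc]
  exact h

noncomputable def bX : ℝ := (34 / 23) ^ 68 / (11 / 23) ^ 22
noncomputable def bY : ℝ := (17 / 12) ^ 51 / (5 / 12) ^ 15
noncomputable def gX : ℝ := (1 + (2 * (9 / 20) + (9 / 20) ^ 2) ^ 2) ^ 68 / (9 / 20) ^ 88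
noncomputable def dX : ℝ := (1 + 4 * (7 / 12) ^ 2 + (7 / 12) ^ 4) ^ 68 / (7 / 12) ^ 88
noncomputable def gY : ℝ := (1 + (2 * (5 / 12) + (5 / 12) ^ 2) ^ 2) ^ 51 / (5 / 12) ^ 60
def L : ℝ := 795000000000

lemma numa : L * 2 ^ 22 < bX := by unfold L bX; norm_num
lemma numb : L ^ 3 * (gX * gY) < (bX * bY) ^ 4 := by unfold L bX bY gX gY; norm_num
lemma numc : L ^ 3 * 2 ^ 22 * (dX * gY) < (bX * bY) ^ 4 := by unfold L bX bY dX gY; norm_num
lemma numd : (1.2589 : ℝ) ^ 119 < L := by unfold L; norm_num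

lemma pL : 0 < L := by unfold L; norm_num
lemma pbX : 0 < bX := by unfold bX; positivity
lemma pbY : 0 < bY := by unfold bY; positivity
lemma pgX : 0 < gX := by unfold gX; positivity
lemma pdX : 0 < dX := by unfold dX; positivity
lemma pgY : 0 < gY := by unfold gY; positivity

attribute [irreducible] bX bY gX dX gY L

lemma family : ∀ᶠ m : ℕ in atTop,
    ∃ F : Finset (W (Fin (68 * m)) (Fin (51 * m))), UF F ∧ L ^ m / 8 ≤ F.card := by
  have pL := pL
  have pbX := pbX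
  have pbY := pbY
  have pgX := pgX
  have pdX := pdX
  have pgY := pgY
  have ea := ev (bX / (L * 2 ^ 22)) 16 ((one_lt_div (by positivity)).mpr numa) (by norm_num)
  have eb := ev ((bX * bY) ^ 4 / (L ^ 3 * (gX * gY))) 8
    ((one_lt_div (by positivity)).mpr numb) (by norm_num)
  have ec := ev ((bX * bY) ^ 4 / (L ^ 3 * 2 ^ 22 * (dX * gY))) 16
    ((one_lt_div (by positivity)).mpr numc) (by norm_num)
  filter_upwards [ea, eb, ec, eventually_gt_atTop 0] with m ha hb hc hm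
  set u : ℝ := 68 * (m : ℝ) + 1 with hu
  have hm0 : (0 : ℝ) ≤ m := Nat.cast_nonneg m
  have hu1 : 1 ≤ u := by linarith
  set BX : ℝ := ((layer (Fin (68 * m)) (22 * m)).card : ℝ) with hBX
  set BY : ℝ := ((layer (Fin (51 * m)) (15 * m)).card : ℝ) with hBY
  have hX : bX ^ m ≤ u * BX := by
    have := layer_lower 68 22 m (by norm_num) (by norm_num) hm
    push_cast at this
    rw [show ((22 : ℝ) / (68 - 22)) = 11 / 23 by norm_num,
      show (1 + (11 : ℝ) / 23) = 34 / 23 by norm_num] at this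
    rw [bX]
    exact this
  have hBY0 : 0 ≤ BY := Nat.cast_nonneg _
  have hY : bY ^ m ≤ u * BY := by
    have := layer_lower 51 15 m (by norm_num) (by norm_num) hm
    push_cast at this
    rw [show ((15 : ℝ) / (51 - 15)) = 5 / 12 by norm_num,
      show (1 + (5 : ℝ) / 12) = 17 / 12 by norm_num] at this
    rw [bY]
    exact this.trans (mul_le_mul_of_nonneg_right (by linarith) hBY0)
  have hX0 : 0 < BX := by
    have : 0 < u * BX := lt_of_lt_of_le (by positivity) hX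
    exact (mul_pos_iff_of_pos_left (by linarith)).mp this
  have hY1 : 1 ≤ BY := by
    have h1 : 0 < u * BY := lt_of_lt_of_le (by positivity) hY
    have h2 : 0 < BY := (mul_pos_iff_of_pos_left (by linarith)).mp h1
    rw [hBY] at h2 ⊢
    have h3 : 0 < (layer (Fin (51 * m)) (15 * m)).card := by exact_mod_cast h2
    exact_mod_cast h3
  have qX : ((quads (Fin (68 * m)) (22 * m)).card : ℝ) ≤ gX ^ m := by
    have := quads_le (X := Fin (68 * m)) (22 * m) (9 / 20) (by norm_num)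
    rw [Fintype.card_fin, show 4 * (22 * m) = 88 * m by ring] at this
    rw [gX, div_pow, ← pow_mul, ← pow_mul, le_div_iff₀ (by positivity)]
    exact this
  have qD : ((dquads (Fin (68 * m)) (22 * m)).card : ℝ) ≤ dX ^ m := by
    have := dquads_le (X := Fin (68 * m)) (22 * m) (7 / 12) (by norm_num)
    rw [Fintype.card_fin, show 4 * (22 * m) = 88 * m by ring] at this
    rw [dX, div_pow, ← pow_mul, ← pow_mul, le_div_iff₀ (by positivity)]
    exact this
  have qY : ((quads (Fin (51 * m)) (15 * m)).card : ℝ) ≤ gY ^ m := by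
    have := quads_le (X := Fin (51 * m)) (15 * m) (5 / 12) (by norm_num)
    rw [Fintype.card_fin, show 4 * (15 * m) = 60 * m by ring] at this
    rw [gY, div_pow, ← pow_mul, ← pow_mul, le_div_iff₀ (by positivity)]
    exact this
  have hu8 : u ≤ u ^ 8 := by
    calc u = u ^ 1 := (pow_one u).symm
      _ ≤ u ^ 8 := pow_le_pow_right₀ hu1 (by norm_num)
  have hXY : ((bX * bY) ^ 4) ^ m ≤ u ^ 8 * (BX * BY) ^ 4 := by
    have h1 : bX ^ m * bY ^ m ≤ (u * BX) * (u * BY) :=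
      mul_le_mul hX hY (by positivity) (by positivity)
    calc ((bX * bY) ^ 4) ^ m = (bX ^ m * bY ^ m) ^ 4 := by
          rw [← pow_mul, mul_comm 4 m, pow_mul, mul_pow bX bY m]
      _ ≤ ((u * BX) * (u * BY)) ^ 4 := pow_le_pow_left₀ (by positivity) h1 4
      _ = _ := by ring
  have hu8' : 0 < u ^ 8 := by positivity
  refine construct (22 * m) (15 * m) (L ^ m) (by positivity) BX BY hBX hBY hX0 hY1 ?_ ?_ ?_
  · rw [div_pow, le_div_iff₀ (by positivity)] at ha
    have h1 : u * (8 * L ^ m * 2 ^ (22 * m + 1)) ≤ u * BX := by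
      calc u * (8 * L ^ m * 2 ^ (22 * m + 1)) = 16 * u * (L * 2 ^ 22) ^ m := by
            rw [mul_pow, ← pow_mul]; ring
        _ ≤ 16 * u ^ 8 * (L * 2 ^ 22) ^ m := by gcongr
        _ ≤ _ := ha.trans hX
    exact le_of_mul_le_mul_left h1 (by linarith)
  · rw [div_pow, le_div_iff₀ (by positivity)] at hb
    refine le_of_mul_le_mul_left ?_ hu8'
    calc u ^ 8 * (8 * (L ^ m) ^ 3 * (((quads (Fin (68 * m)) (22 * m)).card : ℝ) *
          (quads (Fin (51 * m)) (15 * m)).card))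
        ≤ u ^ 8 * (8 * (L ^ m) ^ 3 * (gX ^ m * gY ^ m)) := by gcongr
      _ = 8 * u ^ 8 * (L ^ 3 * (gX * gY)) ^ m := by
          rw [mul_pow, mul_pow, ← pow_mul L 3, mul_comm 3 m, pow_mul]; ring
      _ ≤ _ := hb.trans hXY
  · rw [div_pow, le_div_iff₀ (by positivity)] at hc
    refine le_of_mul_le_mul_left ?_ hu8'
    calc u ^ 8 * (8 * (L ^ m) ^ 3 * 2 ^ (22 * m + 1) * (((dquads (Fin (68 * m)) (22 * m)).card : ℝ) *
          (quads (Fin (51 * m)) (15 * m)).card))
        ≤ u ^ 8 * (8 * (L ^ m) ^ 3 * 2 ^ (22 * m + 1) * (dX ^ m * gY ^ m)) := by gcongr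
      _ = 16 * u ^ 8 * (L ^ 3 * 2 ^ 22 * (dX * gY)) ^ m := by
          rw [mul_pow, mul_pow, mul_pow, ← pow_mul L 3, mul_comm 3 m, pow_mul, ← pow_mul 2 22]; ring
      _ ≤ _ := hc.trans hXY

/-- Transfer to subsets of `Fin n`. -/
lemma transfer {X Y : Type} [Fintype X] [DecidableEq X] [Fintype Y] [DecidableEq Y] (n : ℕ)
    (hn : Fintype.card X + Fintype.card Y ≤ n) (F : Finset (W X Y)) (hF : UF F) :
    ∃ A : Fin F.card → Finset (Fin n), ∀ i j k l : Fin F.card, i < j → k < l →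
      A i ∪ A j = A k ∪ A l → i = k ∧ j = l := by
  obtain ⟨e⟩ : Nonempty (X ⊕ Y ↪ Fin n) :=
    Function.Embedding.nonempty_of_card_le (by simpa using hn)
  let g : Fin F.card → W X Y := fun i => (F.equivFin.symm i : W X Y)
  have hg : Function.Injective g := fun i j h => F.equivFin.symm.injective (Subtype.ext h)
  have hgF : ∀ i, g i ∈ F := fun i => (F.equivFin.symm i).2
  refine ⟨fun i => ((g i).1.disjSum (g i).2).map e, fun i j k l hij hkl h => ?_⟩
  rw [← Finset.map_union, ← Finset.map_union, Finset.map_inj] at h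
  have h1 : (g i).1 ∪ (g j).1 = (g k).1 ∪ (g l).1 := by
    ext x
    have : Sum.inl x ∈ _ ↔ Sum.inl x ∈ _ := Finset.ext_iff.mp h (Sum.inl x)
    simpa using this
  have h2 : (g i).2 ∪ (g j).2 = (g k).2 ∪ (g l).2 := by
    ext x
    have : Sum.inr x ∈ _ ↔ Sum.inr x ∈ _ := Finset.ext_iff.mp h (Sum.inr x)
    simpa using this
  rcases hF _ (hgF i) _ (hgF j) _ (hgF k) _ (hgF l) (hg.ne hij.ne) (hg.ne hkl.ne) h1 h2 with
    ⟨a, b⟩ | ⟨a, b⟩
  · exact ⟨hg a, hg b⟩
  · have := hg a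
    have := hg b
    omega

theorem lower : ∀ᶠ n : ℕ in atTop, ∃ m : ℕ, (1.2589 : ℝ) ^ n < m ∧
    ∃ A : Fin m → Finset (Fin n), ∀ i j k l : Fin m, i < j → k < l →
      A i ∪ A j = A k ∪ A l → i = k ∧ j = l := by
  have hdiv : Tendsto (fun n : ℕ => n / 119) atTop atTop :=
    Nat.tendsto_div_const_atTop (by norm_num)
  have e2 := ev (L / 1.2589 ^ 119) (9 * 1.2589 ^ 119)
    ((one_lt_div (by positivity)).mpr numd) (by positivity)
  filter_upwards [hdiv.eventually family, hdiv.eventually e2] with n h1 h2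
  obtain ⟨m, hm⟩ : ∃ m, m = n / 119 := ⟨_, rfl⟩
  rw [← hm] at h1 h2
  obtain ⟨F, hF, hc⟩ := h1
  refine ⟨F.card, ?_, transfer n (by simp only [Fintype.card_fin]; omega) F hF⟩
  rw [div_pow, le_div_iff₀ (by positivity)] at h2
  have hu : (1 : ℝ) ≤ (68 * (m : ℝ) + 1) ^ 8 :=
    one_le_pow₀ (by have : (0 : ℝ) ≤ m := Nat.cast_nonneg m; linarith)
  have h3 : (1.2589 : ℝ) ^ n ≤ 1.2589 ^ 119 * (1.2589 ^ 119) ^ m := by
    rw [← pow_mul, ← pow_add]
    exact pow_le_pow_right₀ (by norm_num) (by omega)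
  have h4 : (0 : ℝ) < 1.2589 ^ 119 * (1.2589 ^ 119) ^ m := by positivity
  generalize (1.2589 : ℝ) ^ 119 = z at *
  have h5 : 9 * (z * z ^ m) ≤ 9 * z * (68 * (m : ℝ) + 1) ^ 8 * z ^ m := by nlinarith
  linarith

end Pool.Agent.Lib.MP_70e206_co
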